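import Mathlib
import Pool.Agent.Lib.MP_ca1492_al.Mod.IndA
import Pool.Agent.Lib.MP_ca1492_al.Mod.VVa

/-!
# MP_ca1492_al, D6: modules over the algebras `R D m` for varying `m`

`KObj D` = pairs `(m, V)`, `V` a module over `R D m`; isomorphism, embedding, induction.
-/

namespace CA1492

open TensorProduct

/-- A module over some `R D m`. -/
structure KObj (D : Dat) : Type 1 where
  m : ℕ
  V : Type
  [acg : AddCommGroup V]
  [modC : Module ℂ V]
  [modR : Module (R D m) V]
  [tower : IsScalarTower ℂ (R D m) V]

attribute [instance] KObj.acg KObj.modC KObj.modR KObj.tower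

variable {D : Dat}

/-- Isomorphism. -/
inductive KIso : KObj D → KObj D → Prop
  | mk (m : ℕ) (V : Type) [AddCommGroup V] [Module ℂ V] [Module (R D m) V]
      [IsScalarTower ℂ (R D m) V] (W : Type) [AddCommGroup W] [Module ℂ W] [Module (R D m) W]
      [IsScalarTower ℂ (R D m) W] (e : V ≃ₗ[R D m] W) : KIso ⟨m, V⟩ ⟨m, W⟩

/-- Embedding. -/
inductive KEmb : KObj D → KObj D → Prop
  | mk (m : ℕ) (V : Type) [AddCommGroup V] [Module ℂ V] [Module (R D m) V]
      [IsScalarTower ℂ (R D m) V] (W : Type) [AddCommGroup W] [Module ℂ W] [Module (R D m) W]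
      [IsScalarTower ℂ (R D m) W] (f : V →ₗ[R D m] W) (hf : Function.Injective f) :
      KEmb ⟨m, V⟩ ⟨m, W⟩

/-- Induction. -/
noncomputable def KInd (A B : KObj D) : KObj D := ⟨A.m + B.m, IndV D A.m B.m A.V B.V⟩

/-- The module `V(w)`: generator `1`, relations `ew w 1 = 1`, `yk k 1 = 0`. -/
noncomputable def KV {n : ℕ} (w : Wd D n) : KObj D := ⟨n, VV w n⟩

/-- `V(w)` for a list `w`. -/
noncomputable def KL (l : List D.J) : KObj D := KV (n := l.length) l.get

/-- Products of lists, right nested; the empty product is `V(∅)`. -/
noncomputable def prodK : List (KObj D) → KObj D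
  | [] => KL []
  | [A] => A
  | A :: B :: L => KInd A (prodK (B :: L))

theorem KIso.refl (A : KObj D) : KIso A A := KIso.mk A.m A.V A.V (LinearEquiv.refl _ _)

theorem KIso.symm {A B : KObj D} (h : KIso A B) : KIso B A := by
  cases h with
  | mk m V W e => exact KIso.mk m W V e.symm

theorem KIso.trans {A B C : KObj D} (h : KIso A B) (h' : KIso B C) : KIso A C := by
  cases h with
  | mk m V W e =>
    cases h' with
    | mk _ _ X e' => exact KIso.mk m V X (e.trans e')

theorem KIso.m_eq {A B : KObj D} (h : KIso A B) : A.m = B.m := by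
  cases h with
  | mk m V W e => rfl

theorem KIso.emb {A B : KObj D} (h : KIso A B) : KEmb A B := by
  cases h with
  | mk m V W e => exact KEmb.mk m V W e.toLinearMap e.injective

theorem KEmb.refl (A : KObj D) : KEmb A A := (KIso.refl A).emb

theorem KEmb.trans {A B C : KObj D} (h : KEmb A B) (h' : KEmb B C) : KEmb A C := by
  cases h with
  | mk m V W e he =>
    cases h' with
    | mk _ _ X e' he' => exact KEmb.mk m V X (e'.comp e) (he'.comp he)

theorem KEmb.m_eq {A B : KObj D} (h : KEmb A B) : A.m = B.m := by
  cases h with
  | mk m V W e => rfl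

/-- A ℂ-linear map from an `R D m`-linear one. -/
noncomputable def clin {m : ℕ} {V W : Type} [AddCommGroup V] [Module ℂ V] [Module (R D m) V]
    [IsScalarTower ℂ (R D m) V] [AddCommGroup W] [Module ℂ W] [Module (R D m) W]
    [IsScalarTower ℂ (R D m) W] (f : V →ₗ[R D m] W) : V →ₗ[ℂ] W where
  toFun := f
  map_add' := f.map_add
  map_smul' c v := by
    have h1 : c • v = (algebraMap ℂ (R D m) c) • v := (algebraMap_smul (R D m) c v).symm
    have h2 : c • f v = (algebraMap ℂ (R D m) c) • f v := (algebraMap_smul (R D m) c (f v)).symm
    rw [h1, map_smul, ← h2]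
    rfl

section
variable {m k : ℕ}
  {V V' : Type} [AddCommGroup V] [Module ℂ V] [Module (R D m) V] [IsScalarTower ℂ (R D m) V]
  [AddCommGroup V'] [Module ℂ V'] [Module (R D m) V'] [IsScalarTower ℂ (R D m) V']
  {W W' : Type} [AddCommGroup W] [Module ℂ W] [Module (R D k) W] [IsScalarTower ℂ (R D k) W]
  [AddCommGroup W'] [Module ℂ W'] [Module (R D k) W'] [IsScalarTower ℂ (R D k) W']

theorem map_tens (f : V →ₗ[R D m] V') (g : W →ₗ[R D k] W') (z : R D m ⊗[ℂ] R D k)
    (t : V ⊗[ℂ] W) : TensorProduct.map (clin f) (clin g) (tens V W z t) =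
      tens V' W' z (TensorProduct.map (clin f) (clin g) t) := by
  induction z using TensorProduct.induction_on with
  | zero => simp
  | add a b ha hb => simp only [map_add, LinearMap.add_apply, ha, hb]
  | tmul x y =>
    induction t using TensorProduct.induction_on with
    | zero => simp
    | add a b ha hb => simp only [map_add, ha, hb]
    | tmul v w =>
      rw [tens_tmul, TensorProduct.map_tmul, TensorProduct.map_tmul, tens_tmul]
      congr 1
      · exact f.map_smul x v
      · exact g.map_smul y w

/-- Functoriality of induction. -/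
noncomputable def indMap (f : V →ₗ[R D m] V') (g : W →ₗ[R D k] W') :
    IndV D m k V W →ₗ[R D (m + k)] IndV D m k V' W' where
  toFun F := fun p => TensorProduct.map (clin f) (clin g) (F p)
  map_add' F G := by
    funext p
    exact map_add _ _ _
  map_smul' x F := by
    funext p
    change TensorProduct.map (clin f) (clin g) ((x • F) p) =
      ∑ q, tens V' W' (theta D m k x p q) (TensorProduct.map (clin f) (clin g) (F q))
    rw [IndA_smul_apply, map_sum]
    refine Finset.sum_congr rfl fun q _ => ?_
    exact map_tens f g _ _

theorem indMap_inj (f : V →ₗ[R D m] V') (g : W →ₗ[R D k] W') (hf : Function.Injective f)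
    (hg : Function.Injective g) : Function.Injective (indMap f g) := by
  have h1 : Function.Injective (TensorProduct.map (clin f) (clin g)) := by
    have e : TensorProduct.map (clin f) (clin g) =
        (LinearMap.rTensor W' (clin f)) ∘ₗ (LinearMap.lTensor V (clin g)) := by
      rw [LinearMap.rTensor_comp_lTensor]
    rw [e, LinearMap.coe_comp]
    exact (Module.Flat.rTensor_preserves_injective_linearMap (M := W') (clin f) hf).comp
      (Module.Flat.lTensor_preserves_injective_linearMap (M := V) (clin g) hg)
  intro F G h
  funext p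
  exact h1 (congrFun h p)

/-- Functoriality for isomorphisms. -/
theorem ind_iso (e : V ≃ₗ[R D m] V') (e' : W ≃ₗ[R D k] W') :
    Nonempty (IndV D m k V W ≃ₗ[R D (m + k)] IndV D m k V' W') := by
  refine ⟨LinearEquiv.ofLinearMap (indMap e.toLinearMap e'.toLinearMap)
    (indMap e.symm.toLinearMap e'.symm.toLinearMap) ?_ ?_⟩
  · refine LinearMap.ext fun F => funext fun p => ?_
    change TensorProduct.map (clin e.toLinearMap) (clin e'.toLinearMap)
      (TensorProduct.map (clin e.symm.toLinearMap) (clin e'.symm.toLinearMap) (F p)) = F p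
    generalize F p = t
    induction t using TensorProduct.induction_on with
    | zero => simp
    | add a b ha hb => simp only [map_add, ha, hb]
    | tmul v w =>
      rw [TensorProduct.map_tmul, TensorProduct.map_tmul]
      congr 1
      · exact e.apply_symm_apply v
      · exact e'.apply_symm_apply w
  · refine LinearMap.ext fun F => funext fun p => ?_
    change TensorProduct.map (clin e.symm.toLinearMap) (clin e'.symm.toLinearMap)
      (TensorProduct.map (clin e.toLinearMap) (clin e'.toLinearMap) (F p)) = F p
    generalize F p = t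
    induction t using TensorProduct.induction_on with
    | zero => simp
    | add a b ha hb => simp only [map_add, ha, hb]
    | tmul v w =>
      rw [TensorProduct.map_tmul, TensorProduct.map_tmul]
      congr 1
      · exact e.symm_apply_apply v
      · exact e'.symm_apply_apply w

end

theorem KIso.ind {A A' B B' : KObj D} (h : KIso A A') (h' : KIso B B') :
    KIso (KInd A B) (KInd A' B') := by
  cases h with
  | mk m V W e =>
    cases h' with
    | mk k V' W' e' =>
      obtain ⟨E⟩ := ind_iso e e'
      exact KIso.mk (m + k) (IndV D m k V V') (IndV D m k W W') E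

theorem KEmb.ind {A A' B B' : KObj D} (h : KEmb A A') (h' : KEmb B B') :
    KEmb (KInd A B) (KInd A' B') := by
  cases h with
  | mk m V W e he =>
    cases h' with
    | mk k V' W' e' he' =>
      exact KEmb.mk (m + k) (IndV D m k V V') (IndV D m k W W') (indMap e e') (indMap_inj e e' he he')

/-- Products of isomorphic lists. -/
theorem prodK_iso {L L' : List (KObj D)} (h : List.Forall₂ KIso L L') :
    KIso (prodK L) (prodK L') := by
  induction h with
  | nil => exact KIso.refl _
  | cons h1 h2 ih =>
    cases h2 with
    | nil => exact h1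
    | cons h3 h4 => exact h1.ind ih

/-- Products of embeddings. -/
theorem prodK_emb {L L' : List (KObj D)} (h : List.Forall₂ KEmb L L') :
    KEmb (prodK L) (prodK L') := by
  induction h with
  | nil => exact KEmb.refl _
  | cons h1 h2 ih =>
    cases h2 with
    | nil => exact h1
    | cons h3 h4 => exact h1.ind ih

/-- Equality of the modules `V(w)` for equal words. -/
theorem KV_eq {n n' : ℕ} (h : n = n') (w : Wd D n) (w' : Wd D n')
    (hw : ∀ i, w i = w' (Fin.cast h i)) : KV w = KV w' := by
  subst h
  congr 1
  funext i
  exact hw i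

end CA1492
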