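import Mathlib
import Pool.Agent.Lib.MP_ca1492_al.D6.Obj
import Pool.Agent.Lib.MP_ca1492_al.Mod.VVb

/-!
# MP_ca1492_al, D6, module D6/VIndA: `V(u) ∘ V(v) = V(u v)`
-/

namespace CA1492

open TensorProduct

variable {D : Dat}

/-- The class of 1. -/
noncomputable def v1 {n : ℕ} (w : Wd D n) : VV w n := Submodule.Quotient.mk 1

/-- PROOF: the relations are in `Jk w n`. -/
theorem v1_rel {n : ℕ} (w : Wd D n) : (ew w : R D n) • v1 w = v1 w ∧
    ∀ k : Fin n, (yk k : R D n) • v1 w = 0 := by
  have h0 : (ew w : R D n) • v1 w = v1 w := by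
    unfold v1
    rw [← Submodule.Quotient.mk_smul, smul_eq_mul, mul_one]
    symm
    rw [Submodule.Quotient.eq]
    exact Submodule.subset_span (Or.inl rfl)
  refine ⟨h0, fun k => ?_⟩
  rw [← h0, smul_smul]
  unfold v1
  rw [← Submodule.Quotient.mk_smul, smul_eq_mul, mul_one, Submodule.Quotient.mk_eq_zero]
  exact Submodule.subset_span (Or.inr ⟨k, k.isLt, rfl⟩)

theorem VIndA_ker {n : ℕ} (w : Wd D n) (N : Type) [AddCommGroup N] [Module (R D n) N] (s : N)
    (hs : (ew w : R D n) • s = s) (hy : ∀ k : Fin n, (yk k : R D n) • s = 0) :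
    Jk w n ≤ LinearMap.ker (LinearMap.toSpanSingleton (R D n) N s) := by
  unfold Jk
  rw [Submodule.span_le]
  rintro x (rfl | ⟨j, hj, rfl⟩)
  · show _ ∈ LinearMap.ker _
    rw [LinearMap.mem_ker, LinearMap.toSpanSingleton_apply, sub_smul, one_smul, hs, sub_self]
  · show _ ∈ LinearMap.ker _
    rw [LinearMap.mem_ker, LinearMap.toSpanSingleton_apply, mul_smul, hs, hy]

/-- The universal property. PROOF: `Submodule.liftQ`, `LinearMap.toSpanSingleton`; as in `VVc_ex`. -/
theorem v1_lift {n : ℕ} (w : Wd D n) (N : Type) [AddCommGroup N] [Module (R D n) N] (s : N)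
    (hs : (ew w : R D n) • s = s) (hy : ∀ k : Fin n, (yk k : R D n) • s = 0) :
    ∃ f : VV w n →ₗ[R D n] N, f (v1 w) = s := by
  refine ⟨(Jk w n).liftQ _ (VIndA_ker w N s hs hy), ?_⟩
  have h1 : (Jk w n).liftQ _ (VIndA_ker w N s hs hy) (v1 w) =
    LinearMap.toSpanSingleton (R D n) N s 1 := rfl
  rw [h1, LinearMap.toSpanSingleton_apply, one_smul]

theorem VIndA_smul {n : ℕ} (w : Wd D n) (a : VV w n) : ∃ x : R D n, a = x • v1 w := by
  obtain ⟨x, rfl⟩ := Submodule.Quotient.mk_surjective _ a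
  refine ⟨x, ?_⟩
  unfold v1
  rw [← Submodule.Quotient.mk_smul, smul_eq_mul, mul_one]

/-- The canonical map.
PROOF: `v1_lift` with s = indIn (v1 u ⊗ v1 v): `indIn_facts`, `iota_ew`, and
yk (castAdd j) = iota (yk j ⊗ 1), yk (natAdd j) = iota (1 ⊗ yk j) (`iotaL_spec`, `iotaR_spec`),
`v1_rel`. -/
theorem VInd_map {m k : ℕ} (u : Wd D m) (v : Wd D k) :
    ∃ f : VV (Fin.append u v) (m + k) →ₗ[R D (m + k)] IndV D m k (VV u m) (VV v k),
      f (v1 (Fin.append u v)) = indIn (VV u m) (VV v k) (v1 u ⊗ₜ v1 v) := by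
  apply v1_lift
  · rw [← iota_ew, (indIn_facts (VV u m) (VV v k)).1, tens_tmul, (v1_rel u).1, (v1_rel v).1]
  · intro j
    refine Fin.addCases (fun i => ?_) (fun i => ?_) j
    · have h : (yk (Fin.castAdd k i) : R D (m + k)) = iota D m k (yk i ⊗ₜ 1) := by
        rw [iota, Algebra.TensorProduct.lift_tmul, map_one, mul_one, (iotaL_spec D m k).2.1]
      rw [h, (indIn_facts (VV u m) (VV v k)).1, tens_tmul, (v1_rel u).2,
        TensorProduct.zero_tmul, map_zero]
    · have h : (yk (Fin.natAdd m i) : R D (m + k)) = iota D m k (1 ⊗ₜ yk i) := by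
        rw [iota, Algebra.TensorProduct.lift_tmul, map_one, one_mul, (iotaR_spec D m k).2.1]
      rw [h, (indIn_facts (VV u m) (VV v k)).1, tens_tmul, (v1_rel v).2,
        TensorProduct.tmul_zero, map_zero]

/-- It is surjective.
PROOF: every F is `∑ CS (shf p) • indIn (F p)` (`indIn_facts`), F p is a sum of elements
`(x • v1 u) ⊗ (y • v1 v) = tens (x ⊗ y) (v1 u ⊗ v1 v)` (every element of VV is x • v1). -/
theorem VInd_surj {m k : ℕ} (u : Wd D m) (v : Wd D k)
    (f : VV (Fin.append u v) (m + k) →ₗ[R D (m + k)] IndV D m k (VV u m) (VV v k))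
    (hf : f (v1 (Fin.append u v)) = indIn (VV u m) (VV v k) (v1 u ⊗ₜ v1 v)) :
    Function.Surjective f := by
  rw [← LinearMap.range_eq_top, eq_top_iff]
  intro F _
  have hin : ∀ t : VV u m ⊗[ℂ] VV v k, (indIn (VV u m) (VV v k) t :
      IndV D m k (VV u m) (VV v k)) ∈ LinearMap.range f := by
    intro t
    induction t using TensorProduct.induction_on with
    | zero =>
      rw [map_zero]
      exact Submodule.zero_mem _
    | add a b ha hb =>
      rw [map_add]
      exact Submodule.add_mem _ ha hb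
    | tmul a b =>
      obtain ⟨x, rfl⟩ := VIndA_smul u a
      obtain ⟨y, rfl⟩ := VIndA_smul v b
      rw [← tens_tmul, ← (indIn_facts (VV u m) (VV v k)).1, ← hf, ← map_smul]
      exact ⟨_, rfl⟩
  rw [(indIn_facts (VV u m) (VV v k)).2 F]
  exact Submodule.sum_mem _ fun p _ => Submodule.smul_mem _ _ (hin _)

theorem VIndA_finrank {n : ℕ} (w : Wd D n) : Module.finrank ℂ (VV w n) = n.factorial := by
  obtain ⟨b, -⟩ := VV_basis w
  rw [Module.finrank_eq_card_basis b, card_Sq]

/-- It is bijective.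
PROOF: dimensions: `VV_basis`, `card_Sq`: finrank (VV w n) = n!; `card_shf`: finrank IndV =
(m + k).choose k * (m! * k!) = (m + k)!. A surjective linear map between spaces of the same finite
dimension is injective (`LinearMap.injective_iff_surjective_of_finrank_eq_finrank` for `clin f`). -/
theorem VInd_bij {m k : ℕ} (u : Wd D m) (v : Wd D k)
    (f : VV (Fin.append u v) (m + k) →ₗ[R D (m + k)] IndV D m k (VV u m) (VV v k))
    (hf : f (v1 (Fin.append u v)) = indIn (VV u m) (VV v k) (v1 u ⊗ₜ v1 v)) :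
    Function.Bijective f := by
  have hs := VInd_surj u v f hf
  have := VV_fin u
  have := VV_fin v
  have := VV_fin (Fin.append u v)
  refine ⟨?_, hs⟩
  have hd : Module.finrank ℂ (VV (Fin.append u v) (m + k)) =
      Module.finrank ℂ (IndV D m k (VV u m) (VV v k)) := by
    rw [VIndA_finrank]
    have h1 : Module.finrank ℂ (IndV D m k (VV u m) (VV v k)) =
        Module.finrank ℂ (Shf m k → (VV u m ⊗[ℂ] VV v k)) := rfl
    rw [h1, Module.finrank_pi_fintype, Finset.sum_const, Finset.card_univ, card_shf,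
      Module.finrank_tensorProduct, VIndA_finrank, VIndA_finrank, smul_eq_mul]
    have h2 := Nat.add_choose_mul_factorial_mul_factorial m k
    rw [← h2, mul_assoc]
  have hs' : Function.Surjective (clin f) := hs
  exact (LinearMap.injective_iff_surjective_of_finrank_eq_finrank hd).mpr hs'

/-- PROOF: `VInd_map`, `VInd_bij`. -/
theorem VInd {m k : ℕ} (u : Wd D m) (v : Wd D k) :
    KIso (KInd (KV u) (KV v)) (KV (Fin.append u v)) := by
  obtain ⟨f, hf⟩ := VInd_map u v
  exact (KIso.mk (m + k) (VV (Fin.append u v) (m + k)) (IndV D m k (VV u m) (VV v k))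
    (LinearEquiv.ofBijective f (VInd_bij u v f hf))).symm

end CA1492
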