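import Mathlib
import Pool.Agent.Lib.MP_ca1492_al.D6.VIndA

/-!
# MP_ca1492_al, module D6/VInd: `V(u) ∘ V(v) = V(u v)` for lists
-/

namespace CA1492

open TensorProduct

variable {D : Dat}

/-- The version for lists. PROOF: `VInd`, `KV_eq` with `List.length_append`; the letters:
`List.getElem_append`, `Fin.append`, `Fin.addCases`. -/
theorem VIndL (l₁ l₂ : List D.J) : KIso (KInd (KL l₁) (KL l₂)) (KL (l₁ ++ l₂)) := by
  have h : l₁.length + l₂.length = (l₁ ++ l₂).length := List.length_append.symm
  have e : KV (Fin.append l₁.get l₂.get) = KL (l₁ ++ l₂) := by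
    refine KV_eq h _ _ fun i => ?_
    refine Fin.addCases (fun i => ?_) (fun i => ?_) i
    · rw [Fin.append_left]
      simp only [List.get_eq_getElem, Fin.val_cast, Fin.val_castAdd]
      rw [List.getElem_append_left]
    · rw [Fin.append_right]
      simp only [List.get_eq_getElem, Fin.val_cast, Fin.val_natAdd]
      rw [List.getElem_append_right (Nat.le_add_right _ _)]
      congr 1
      omega
  rw [← e]
  exact VInd l₁.get l₂.get

/-- PROOF: induction on L (`VIndL`, `KIso.ind`); the one element list: `L.flatten = l`. -/
theorem prodK_KL (L : List (List D.J)) : KIso (prodK (L.map KL)) (KL L.flatten) := by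
  induction L with
  | nil => exact KIso.refl _
  | cons A L ih =>
    cases L with
    | nil =>
      rw [List.flatten_cons, List.flatten_nil, List.append_nil]
      exact KIso.refl _
    | cons B L =>
      rw [List.flatten_cons]
      exact ((KIso.refl (KL A)).ind ih).trans (VIndL A _)

end CA1492
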